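import Mathlib

set_option autoImplicit false

/-!
Independent bases of quasi-identities of a finite group: for every `k`, all but finitely many
members of a basis hold in every `k`-generated group satisfying the other members; in particular an
independent basis has only finitely many members in at most `k` variables.
-/

namespace Pool.Agent.Results.MP_6fc7a0_al.FewGenerators

/-- A quasi-identity `(P, w)` (all words of `P` equal `1` imply `w = 1`, in the variables
`x_0, x_1, …`) holds in the group `H`. -/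
def Holds (H : Type) [Group H] (q : Finset (FreeGroup ℕ) × FreeGroup ℕ) : Prop :=
  ∀ ψ : FreeGroup ℕ →* H, (∀ w ∈ q.1, ψ w = 1) → ψ q.2 = 1

/-- `S` is a basis of quasi-identities of `G`: the quasi-identities true in `G` are exactly the
consequences, over all groups, of `S`. -/
def IsBasis (G : Type) [Group G] (S : Set (Finset (FreeGroup ℕ) × FreeGroup ℕ)) : Prop :=
  ∀ q, Holds G q ↔ ∀ (H : Type) [Group H], (∀ p ∈ S, Holds H p) → Holds H q

/-- No member of `S` is a consequence of the other members. -/
def Independent (S : Set (Finset (FreeGroup ℕ) × FreeGroup ℕ)) : Prop :=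
  ∀ σ ∈ S, ¬ ∀ (H : Type) [Group H], (∀ p ∈ S, p ≠ σ → Holds H p) → Holds H σ

/-- All words of `σ` are words in the `k` variables `x_{ι 0}, …, x_{ι (k-1)}`, for some `k`
variables. -/
def AtMostVars (k : ℕ) (σ : Finset (FreeGroup ℕ) × FreeGroup ℕ) : Prop :=
  ∃ ι : Fin k → ℕ, (∀ w ∈ σ.1, w ∈ (FreeGroup.map ι).range) ∧ σ.2 ∈ (FreeGroup.map ι).range

/-- Compactness for quasi-identities of groups. -/
lemma compactness (S : Set (Finset (FreeGroup ℕ) × FreeGroup ℕ))
    (q : Finset (FreeGroup ℕ) × FreeGroup ℕ)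
    (h : ∀ (H : Type) [Group H], (∀ p ∈ S, Holds H p) → Holds H q) :
    ∃ T : Set (Finset (FreeGroup ℕ) × FreeGroup ℕ), T ⊆ S ∧ T.Finite ∧
      ∀ (H : Type) [Group H], (∀ p ∈ T, Holds H p) → Holds H q := by
  classical
  by_contra hcon
  push Not at hcon
  let I := {s : Finset (Finset (FreeGroup ℕ) × FreeGroup ℕ) // (↑s : Set _) ⊆ S}
  have hI : ∀ s : I, ∃ (H : Type) (_ : Group H), (∀ p ∈ (↑s.1 : Set _), Holds H p) ∧ ¬ Holds H q :=
    fun s => hcon _ s.2 s.1.finite_toSet
  choose H gH hH1 hH2 using hI
  have hψ : ∀ s : I, ∃ ψ : FreeGroup ℕ →* H s, (∀ w ∈ q.1, ψ w = 1) ∧ ψ q.2 ≠ 1 := by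
    intro s
    have := hH2 s
    unfold Holds at this
    push Not at this
    exact this
  choose ψ hψ1 hψ2 using hψ
  have : Nonempty I := ⟨⟨∅, by simp⟩⟩
  have : IsDirected I (· ≤ ·) := ⟨fun a b => ⟨⟨a.1 ∪ b.1, by
    intro x hx
    simp only [Finset.coe_union, Set.mem_union] at hx
    exact hx.elim (fun h => a.2 h) (fun h => b.2 h)⟩,
    Finset.subset_union_left, Finset.subset_union_right⟩⟩
  let F : Filter I := Filter.atTop
  let M : Subgroup (∀ s, H s) :=
    { carrier := {f | ∀ᶠ s in F, f s = 1}
      one_mem' := Filter.Eventually.of_forall fun _ => rfl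
      mul_mem' := by
        intro a b ha hb
        filter_upwards [ha, hb] with s h1 h2
        simp [Pi.mul_apply, h1, h2]
      inv_mem' := by
        intro a ha
        filter_upwards [ha] with s h1
        simp [Pi.inv_apply, h1] }
  have : M.Normal := ⟨by
    intro a ha g
    filter_upwards [ha] with s h1
    simp [Pi.mul_apply, Pi.inv_apply, h1]⟩
  have key : ∀ p ∈ S, Holds ((∀ s, H s) ⧸ M) p := by
    intro p hp θ hθ
    let θ' : FreeGroup ℕ →* (∀ s, H s) := FreeGroup.lift fun n => (θ (FreeGroup.of n)).out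
    have hθ' : ∀ w, QuotientGroup.mk' M (θ' w) = θ w := by
      intro w
      have : (QuotientGroup.mk' M).comp θ' = θ := by
        ext n
        simp [θ']
      exact DFunLike.congr_fun this w
    have hmem : ∀ w, θ w = 1 ↔ ∀ᶠ s in F, θ' w s = 1 := by
      intro w
      rw [← hθ' w, QuotientGroup.mk'_apply, QuotientGroup.eq_one_iff]
      rfl
    rw [hmem]
    have h1 : ∀ᶠ s in F, ∀ w ∈ p.1, θ' w s = 1 := by
      rw [Filter.eventually_all_finset]
      intro w hw
      exact (hmem w).1 (hθ w hw)
    have h2 : ∀ᶠ s in F, p ∈ (s : I).1 := by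
      refine Filter.eventually_atTop.2 ⟨⟨{p}, by simpa using hp⟩, fun b hb => ?_⟩
      exact hb (Finset.mem_singleton_self p)
    filter_upwards [h1, h2] with s h1 h2
    exact hH1 s p h2 ((Pi.evalMonoidHom H s).comp θ') h1
  have hq := h _ key ((QuotientGroup.mk' M).comp (MonoidHom.mk' (fun w s => ψ s w)
    (by intro a b; funext s; simp))) (by
      intro w hw
      simp only [MonoidHom.comp_apply, QuotientGroup.mk'_apply, QuotientGroup.eq_one_iff]
      exact Filter.Eventually.of_forall fun s => hψ1 s w hw)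
  simp only [MonoidHom.comp_apply, QuotientGroup.mk'_apply, QuotientGroup.eq_one_iff] at hq
  have hq' : ∀ᶠ s in F, ψ s q.2 = 1 := hq
  obtain ⟨s, hs⟩ := hq'.exists
  exact hψ2 s hs

/-- Extension of a homomorphism from the free group of rank `k` to the free group on `ℕ`, along the
first `k` variables. -/
lemma extend {k : ℕ} {H : Type} [Group H] (θ : FreeGroup (Fin k) →* H) :
    ∃ ψ : FreeGroup ℕ →* H, ∀ w, ψ (FreeGroup.map (fun i : Fin k => (i : ℕ)) w) = θ w := by
  classical
  refine ⟨FreeGroup.lift fun n => if h : n < k then θ (FreeGroup.of ⟨n, h⟩) else 1, fun w => ?_⟩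
  have : (FreeGroup.lift fun n => if h : n < k then θ (FreeGroup.of ⟨n, h⟩) else 1).comp
      (FreeGroup.map (fun i : Fin k => (i : ℕ))) = θ := by
    ext i
    simp
  exact DFunLike.congr_fun this w

/-- The `k`-variable quasi-identities of a finite group follow from finitely many members of any
basis; hence the `k`-generated groups of the quasivariety are finitely axiomatised. -/
lemma fin_axiom (G : Type) [Group G] [Finite G] (S : Set (Finset (FreeGroup ℕ) × FreeGroup ℕ))
    (hb : IsBasis G S) (k : ℕ) :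
    ∃ T : Set (Finset (FreeGroup ℕ) × FreeGroup ℕ), T ⊆ S ∧ T.Finite ∧
      ∀ (H : Type) [Group H] (x : Fin k → H), Subgroup.closure (Set.range x) = ⊤ →
        (∀ p ∈ T, Holds H p) → ∀ q, Holds G q → Holds H q := by
  classical
  let Fk := FreeGroup (Fin k)
  let ι : Fin k → ℕ := fun i => (i : ℕ)
  have : Finite (Fk →* G) := Finite.of_equiv (Fin k → G) FreeGroup.lift
  let Φ : Fk →* ((Fk →* G) → G) := MonoidHom.mk' (fun w φ => φ w) (by
    intro a b; funext φ; simp)
  let N : Subgroup Fk := Φ.ker
  have hNfi : N.FiniteIndex := Subgroup.finiteIndex_ker Φ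
  have hNfg : Group.FG N := Subgroup.fg_of_index_ne_zero N
  have hNfg' : N.FG := (Group.fg_iff_subgroup_fg N).1 hNfg
  obtain ⟨W, hW⟩ := hNfg'
  have hfinQ : Finite (Fk ⧸ N) := Subgroup.finite_quotient_of_finiteIndex
  have hNG : ∀ w ∈ N, ∀ φ : Fk →* G, φ w = 1 := by
    intro w hw φ
    have : Φ w = 1 := hw
    exact congrFun this φ
  -- finite subsets implying the identities of `W`
  have hidW : ∀ w : Fk, ∃ T : Set (Finset (FreeGroup ℕ) × FreeGroup ℕ), T ⊆ S ∧ T.Finite ∧
      (w ∈ W → ∀ (H : Type) [Group H], (∀ p ∈ T, Holds H p) →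
        Holds H (∅, FreeGroup.map ι w)) := by
    intro w
    by_cases hw : w ∈ W
    · have hG : Holds G (∅, FreeGroup.map ι w) := by
        intro ψ _
        have hwN : w ∈ N := hW ▸ Subgroup.subset_closure hw
        exact hNG w hwN (ψ.comp (FreeGroup.map ι))
      obtain ⟨T, h1, h2, h3⟩ := compactness S _ ((hb _).1 hG)
      exact ⟨T, h1, h2, fun _ => h3⟩
    · exact ⟨∅, by simp, by simp, fun h => absurd h hw⟩
  choose TW hTW1 hTW2 hTW3 using hidW
  -- canonical quasi-identities
  let rep : Fk ⧸ N → Fk := fun a => a.out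
  let can : Finset (Fk ⧸ N) × (Fk ⧸ N) → Finset (FreeGroup ℕ) × FreeGroup ℕ := fun t =>
    (t.1.image fun a => FreeGroup.map ι (rep a), FreeGroup.map ι (rep t.2))
  have hcan : ∀ t : Finset (Fk ⧸ N) × (Fk ⧸ N),
      ∃ T : Set (Finset (FreeGroup ℕ) × FreeGroup ℕ), T ⊆ S ∧ T.Finite ∧
      (Holds G (can t) → ∀ (H : Type) [Group H], (∀ p ∈ T, Holds H p) → Holds H (can t)) := by
    intro t
    by_cases ht : Holds G (can t)
    · obtain ⟨T, h1, h2, h3⟩ := compactness S _ ((hb _).1 ht)
      exact ⟨T, h1, h2, fun _ => h3⟩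
    · exact ⟨∅, by simp, by simp, fun h => absurd h ht⟩
  choose TC hTC1 hTC2 hTC3 using hcan
  refine ⟨(⋃ w ∈ W, TW w) ∪ ⋃ t, TC t, ?_, ?_, ?_⟩
  · apply Set.union_subset
    · exact Set.iUnion₂_subset fun w _ => hTW1 w
    · exact Set.iUnion_subset fun t => hTC1 t
  · apply Set.Finite.union
    · exact W.finite_toSet.biUnion fun w _ => hTW2 w
    · exact Set.finite_iUnion hTC2
  · intro H _ x hx hT q hq
    let θ : Fk →* H := FreeGroup.lift x
    have hθs : Function.Surjective θ := by
      rw [← MonoidHom.range_eq_top, FreeGroup.range_lift_eq_closure]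
      exact hx
    -- `θ` kills `N`
    have hkill : ∀ w ∈ N, θ w = 1 := by
      obtain ⟨ψ, hψ⟩ := extend θ
      have hle : Subgroup.closure (W : Set Fk) ≤ θ.ker := by
        rw [Subgroup.closure_le]
        intro w hw
        have h1 : Holds H (∅, FreeGroup.map ι w) := hTW3 w hw H fun p hp => hT p
          (Or.inl (Set.mem_biUnion hw hp))
        have h2 := h1 ψ (by simp)
        exact (hψ w).symm.trans h2
      intro w hw
      exact hle (hW.symm ▸ hw)
    intro ψ hψ
    let ψ' : FreeGroup ℕ →* Fk := FreeGroup.lift fun n => (hθs (ψ (FreeGroup.of n))).choose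
    have hψ' : ∀ w, θ (ψ' w) = ψ w := by
      intro w
      have : θ.comp ψ' = ψ := by
        ext n
        simpa [ψ'] using (hθs (ψ (FreeGroup.of n))).choose_spec
      exact DFunLike.congr_fun this w
    -- the class of the substituted quasi-identity
    let t : Finset (Fk ⧸ N) × (Fk ⧸ N) :=
      (q.1.image fun w => (QuotientGroup.mk (ψ' w) : Fk ⧸ N), QuotientGroup.mk (ψ' q.2))
    have hrep : ∀ {K : Type} [Group K] (φ : Fk →* K), (∀ w ∈ N, φ w = 1) → ∀ w : Fk,
        φ (rep (QuotientGroup.mk w)) = φ w := by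
      intro K _ φ hφ w
      have h1 : (QuotientGroup.mk (rep (QuotientGroup.mk w)) : Fk ⧸ N) = QuotientGroup.mk w :=
        Quotient.out_eq _
      have h2 := hφ _ (QuotientGroup.eq.1 h1)
      rw [map_mul, map_inv] at h2
      exact inv_mul_eq_one.1 h2
    have hGt : Holds G (can t) := by
      intro φ hφ
      have hφN : ∀ w ∈ N, (φ.comp (FreeGroup.map ι)) w = 1 := fun w hw => hNG w hw _
      have h1 := hq ((φ.comp (FreeGroup.map ι)).comp ψ') (by
        intro w hw
        have h2 := hφ (FreeGroup.map ι (rep (QuotientGroup.mk (ψ' w))))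
          (Finset.mem_image_of_mem _ (Finset.mem_image_of_mem _ hw))
        have h3 := hrep (φ.comp (FreeGroup.map ι)) hφN (ψ' w)
        exact h3.symm.trans h2)
      exact (hrep (φ.comp (FreeGroup.map ι)) hφN (ψ' q.2)).trans h1
    have hHt : Holds H (can t) := hTC3 t hGt H fun p hp => hT p (Or.inr (Set.mem_iUnion.2 ⟨t, hp⟩))
    obtain ⟨η, hη⟩ := extend θ
    have h1 := hHt η (by
      intro w hw
      obtain ⟨a, ha, rfl⟩ := Finset.mem_image.1 hw
      obtain ⟨v, hv, rfl⟩ := Finset.mem_image.1 ha
      rw [hη, hrep θ hkill, hψ']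
      exact hψ v hv)
    have h2 : η (FreeGroup.map ι (rep (QuotientGroup.mk (ψ' q.2)))) = 1 := h1
    rw [hη, hrep θ hkill, hψ'] at h2
    exact h2

/-- Let `G` be a finite group and let `S` be a basis of quasi-identities of `G`, and `k` a natural
number.  (1) For all but finitely many `σ ∈ S`, every `k`-generated group that satisfies all
members of `S` other than `σ` also satisfies `σ`.  (2) If `S` is independent, then only finitely
many members of `S` involve at most `k` variables. -/
theorem result (G : Type) [Group G] [Finite G]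
    (S : Set (Finset (FreeGroup ℕ) × FreeGroup ℕ)) (hb : IsBasis G S) (k : ℕ) :
    {σ ∈ S | ¬ ∀ (H : Type) [Group H] (x : Fin k → H), Subgroup.closure (Set.range x) = ⊤ →
      (∀ p ∈ S, p ≠ σ → Holds H p) → Holds H σ}.Finite ∧
    (Independent S → {σ ∈ S | AtMostVars k σ}.Finite) := by
  classical
  obtain ⟨T, hTS, hTf, hT⟩ := fin_axiom G S hb k
  have htrue : ∀ p ∈ S, Holds G p := fun p hp => (hb p).2 fun H _ h => h p hp
  have main : ∀ σ ∈ S, σ ∉ T → ∀ (H : Type) [Group H] (x : Fin k → H),
      Subgroup.closure (Set.range x) = ⊤ → (∀ p ∈ S, p ≠ σ → Holds H p) → Holds H σ := by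
    intro σ hσ hσT H _ x hx h
    exact hT H x hx (fun p hp => h p (hTS hp) fun he => hσT (he ▸ hp)) σ (htrue σ hσ)
  refine ⟨hTf.subset ?_, fun hi => hTf.subset ?_⟩
  · rintro σ ⟨hσ, hn⟩
    by_contra hσT
    exact hn (main σ hσ hσT)
  · rintro σ ⟨hσ, ι, hι1, hι2⟩
    by_contra hσT
    refine hi σ hσ fun H _ h ψ hψ => ?_
    -- pass to the subgroup generated by the values of the `k` variables
    let K : Subgroup H := Subgroup.closure (Set.range fun i => ψ (FreeGroup.of (ι i)))
    let x : Fin k → K := fun i => ⟨ψ (FreeGroup.of (ι i)), Subgroup.subset_closure ⟨i, rfl⟩⟩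
    have hx : Subgroup.closure (Set.range x) = ⊤ := by
      have h1 : Subgroup.map K.subtype (Subgroup.closure (Set.range x)) =
          Subgroup.map K.subtype ⊤ := by
        rw [MonoidHom.map_closure, ← Set.range_comp, ← MonoidHom.range_eq_map,
          Subgroup.range_subtype]
        rfl
      exact Subgroup.map_injective K.subtype_injective h1
    have hK : ∀ p, Holds H p → Holds K p := by
      intro p hp θ hθ
      have h1 := hp (K.subtype.comp θ) (by
        intro w hw
        simp [hθ w hw])
      exact K.subtype_injective (by simpa using h1)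
    have hKσ : Holds K σ := main σ hσ hσT K x hx fun p hp hne => hK p (h p hp hne)
    -- a homomorphism to `K` agreeing with `ψ` on the `k` variables
    let χ : FreeGroup ℕ →* K := FreeGroup.lift fun n =>
      if h : ∃ i, ι i = n then x h.choose else 1
    have hχ : ∀ w ∈ (FreeGroup.map ι).range, (χ w : H) = ψ w := by
      rintro _ ⟨v, rfl⟩
      have : (K.subtype.comp χ).comp (FreeGroup.map ι) = ψ.comp (FreeGroup.map ι) := by
        ext i
        have hex : ∃ j, ι j = ι i := ⟨i, rfl⟩
        have h1 : χ (FreeGroup.of (ι i)) = x hex.choose := by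
          simp only [χ, FreeGroup.lift_apply_of]
          rw [dif_pos hex]
        simp only [MonoidHom.comp_apply, FreeGroup.map.of, h1]
        change ψ (FreeGroup.of (ι hex.choose)) = _
        rw [hex.choose_spec]
      exact DFunLike.congr_fun this v
    have h2 := hKσ χ (by
      intro w hw
      apply K.subtype_injective
      have := hχ w (hι1 w hw)
      simpa [hψ w hw] using this)
    rw [← hχ _ hι2, h2]
    rfl

end Pool.Agent.Results.MP_6fc7a0_al.FewGenerators
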